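import Pool.Agent.TH823.SF.Nbh

/-! The local Fourier uniformity of the Liouville function (natural averages), with the supremum over a set of
frequencies of dimension less than one half, which may depend on the length of the window. -/

set_option autoImplicit false

open Finset

namespace Pool.Agent.Results.MP_a9a441_nt.SmallFrequencySets

/-- The covering numbers modulo one of the set `A` of real numbers, at the scales `1 / n` with `n ≤ H`, are at
most `C n ^ s`. -/
def Covering (H : ℕ) (A : Set ℝ) (C s : ℝ) : Prop :=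
  ∀ n : ℕ, 1 ≤ n → n ≤ H → ∃ S : Finset ℝ, (S.card : ℝ) ≤ C * (n : ℝ) ^ s ∧
    ∀ α ∈ A, ∃ y ∈ S, ∃ k : ℤ, |α - y - k| ≤ 1 / n

/-- The mean over `m ≤ M` of the supremum over `α ∈ A` of the absolute value of the mean of
`λ(n) e(n α)` over `m ≤ n ≤ m + N`. -/
noncomputable def meanSup (A : Set ℝ) (N M : ℕ) : ℝ :=
  (1 / (M : ℝ)) *
    ∑ m ∈ Finset.Icc 1 M,
      ⨆ α : A,
        ‖(1 / ((N : ℂ) + 1)) *
          ∑ n ∈ Finset.Icc m (m + N),
            (-1 : ℂ) ^ (Nat.primeFactorsList n).length *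
              Complex.exp (2 * Real.pi * Complex.I * ((n : ℂ) * (((α : A) : ℝ) : ℂ)))‖

open Pool.Agent.TH823.SF in
lemma term_eq (α : ℝ) (N m : ℕ) (hm : 1 ≤ m) :
    ‖(1 / ((N : ℂ) + 1)) * ∑ n ∈ Finset.Icc m (m + N), (-1 : ℂ) ^ (Nat.primeFactorsList n).length *
      Complex.exp (2 * Real.pi * Complex.I * ((n : ℂ) * (α : ℂ)))‖ =
      1 / ((N : ℝ) + 1) * ‖wsum α (m - 1) (N + 1)‖ := by
  rw [norm_mul]
  congr 1
  · rw [norm_div, norm_one]
    congr 1
    have : ((N : ℂ) + 1) = (((N + 1 : ℕ) : ℝ) : ℂ) := by push_cast; ring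
    rw [this, Complex.norm_real, Real.norm_of_nonneg (by positivity)]
    push_cast; ring
  · rw [← asum]
    congr 1
    have e : Finset.Icc m (m + N) = Finset.Ioc (m - 1) (m - 1 + (N + 1)) := by
      ext n; simp only [mem_Icc, mem_Ioc]; omega
    rw [e]
    refine sum_congr rfl fun n _ => ?_
    rw [phase]
    unfold Pool.Agent.TH327.Dim.laf
    rw [ArithmeticFunction.cardFactors_apply]
    congr 2
    ring

open Pool.Agent.TH823.SF in
lemma meanSup_eq (A : Set ℝ) (N M : ℕ) :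
    meanSup A N M = 1 / (M : ℝ) * (1 / ((N : ℝ) + 1) * ∑ x ∈ range M, sw A x (N + 1)) := by
  unfold meanSup
  congr 1
  rw [mul_sum]
  have e : ∑ x ∈ range M, 1 / ((N : ℝ) + 1) * sw A x (N + 1) =
      ∑ m ∈ Icc 1 M, 1 / ((N : ℝ) + 1) * sw A (m - 1) (N + 1) := by
    have h1 : Icc 1 M = (range M).image (fun x => x + 1) := by
      ext m
      simp only [mem_Icc, mem_image, mem_range]
      constructor
      · intro h; exact ⟨m - 1, by omega, by omega⟩
      · rintro ⟨j, hj, rfl⟩; omega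
    rw [h1, sum_image fun a _ b _ hab => by omega]
    refine sum_congr rfl fun x _ => ?_
    rw [Nat.add_sub_cancel]
  rw [e]
  refine sum_congr rfl fun m hm => ?_
  rw [mem_Icc] at hm
  unfold sw
  rw [Real.mul_iSup_of_nonneg (by positivity)]
  exact iSup_congr fun α => term_eq α N m hm.1

lemma meanSup_nonneg (A : Set ℝ) (N M : ℕ) : 0 ≤ meanSup A N M := by
  unfold meanSup
  refine mul_nonneg (by positivity) (sum_nonneg fun m _ => ?_)
  exact Real.iSup_nonneg fun _ => norm_nonneg _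

/-- **Local Fourier uniformity of the Liouville function for small sets of frequencies.** Let `s < 1/2`. The
mean over `m ≤ M` of `sup_{α ∈ A} |(1/(N+1)) ∑_{m ≤ n ≤ m+N} λ(n) e(n α)|` is at most `ε` for all
`M ≥ N + 1 > N₀(C, s, ε)` and all sets `A` of frequencies whose covering numbers at the scales `1 / n`,
`n ≤ N + 1`, are at most `C n ^ s`. So its upper limit as `M → ∞` tends to zero as `N → ∞`, for each set `A`,
even one depending on `N`, of this kind. -/
theorem result (C s : ℝ) (hs : s < 1 / 2) :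
    (∀ ε : ℝ, 0 < ε → ∃ N₀ : ℕ, ∀ N : ℕ, N₀ ≤ N → ∀ A : Set ℝ, Covering (N + 1) A C s →
      ∀ M : ℕ, N + 1 ≤ M → meanSup A N M ≤ ε) ∧
    ∀ A : ℕ → Set ℝ, (∀ N, Covering (N + 1) (A N) C s) →
      Filter.Tendsto (fun N : ℕ => Filter.limsup (fun M : ℕ => meanSup (A N) N M) Filter.atTop)
        Filter.atTop (nhds 0) := by
  have key : ∀ ε : ℝ, 0 < ε → ∃ N₀ : ℕ, ∀ N : ℕ, N₀ ≤ N → ∀ A : Set ℝ, Covering (N + 1) A C s →
      ∀ M : ℕ, N + 1 ≤ M → meanSup A N M ≤ ε := by
    intro ε hε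
    obtain ⟨H0, h0⟩ := Pool.Agent.TH823.SF.avg2 C s hs ε hε
    refine ⟨H0, fun N hN A hA M hM => ?_⟩
    have h1 := h0 (N + 1) (by omega) M hM A hA
    rw [meanSup_eq]
    have hM0 : (0 : ℝ) < M := by exact_mod_cast (by omega : 0 < M)
    have hN0 : (0 : ℝ) < (N : ℝ) + 1 := by positivity
    push_cast at h1
    calc 1 / (M : ℝ) * (1 / ((N : ℝ) + 1) * ∑ x ∈ range M, Pool.Agent.TH823.SF.sw A x (N + 1)) ≤
        1 / (M : ℝ) * (1 / ((N : ℝ) + 1) * (ε * ((N : ℝ) + 1) * M)) := by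
          apply mul_le_mul_of_nonneg_left _ (by positivity)
          exact mul_le_mul_of_nonneg_left h1 (by positivity)
      _ = ε := by field_simp
  refine ⟨key, fun A hA => ?_⟩
  rw [Metric.tendsto_atTop]
  intro ε hε
  obtain ⟨N0, h0⟩ := key (ε / 2) (by positivity)
  refine ⟨N0, fun N hN => ?_⟩
  have h1 : ∀ᶠ M : ℕ in Filter.atTop, meanSup (A N) N M ≤ ε / 2 := by
    filter_upwards [Filter.eventually_ge_atTop (N + 1)] with M hM
    exact h0 N hN (A N) (hA N) M hM
  have hb : Filter.IsBoundedUnder (· ≥ ·) Filter.atTop (fun M : ℕ => meanSup (A N) N M) :=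
    Filter.isBoundedUnder_of ⟨0, fun M => meanSup_nonneg _ _ _⟩
  have hb' : Filter.IsBoundedUnder (· ≤ ·) Filter.atTop (fun M : ℕ => meanSup (A N) N M) := ⟨ε / 2, by
    rw [Filter.eventually_map]; exact h1⟩
  have h2 : Filter.limsup (fun M : ℕ => meanSup (A N) N M) Filter.atTop ≤ ε / 2 :=
    Filter.limsup_le_of_le hb.isCoboundedUnder_le h1
  have h3 : 0 ≤ Filter.limsup (fun M : ℕ => meanSup (A N) N M) Filter.atTop :=
    Filter.le_limsup_of_frequently_le (Filter.Frequently.of_forall fun M => meanSup_nonneg _ _ _) hb'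
  rw [Real.dist_eq, sub_zero, abs_of_nonneg h3]
  linarith

end Pool.Agent.Results.MP_a9a441_nt.SmallFrequencySets
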